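import Pool.Agent.helper22.FI.SpecA

set_option autoImplicit false

namespace Pool.Agent.FI

open Pool.Agent.helper58.DC Pool.Agent.DI Pool.Agent.GR Pool.Agent.OB

theorem CJG_mem {G : Type} [Group G] (g : G) (L : Subgroup G) (x : G) :
    x ∈ L.map (MulAut.conj g).toMonoidHom ↔ g⁻¹ * x * g ∈ L := by
  rw [Subgroup.mem_map]
  constructor
  · rintro ⟨y, hy, rfl⟩
    have h : g⁻¹ * ((MulAut.conj g).toMonoidHom y) * g = y := by
      show g⁻¹ * (g * y * g⁻¹) * g = y
      group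
    rw [h]; exact hy
  · intro h
    refine ⟨g⁻¹ * x * g, h, ?_⟩
    show g * (g⁻¹ * x * g) * g⁻¹ = x
    group

theorem CJG_mem' {G : Type} [Group G] (g : G) (L : Subgroup G) (x : G) :
    g * x * g⁻¹ ∈ L.map (MulAut.conj g).toMonoidHom ↔ x ∈ L := by
  rw [CJG_mem]
  have h : g⁻¹ * (g * x * g⁻¹) * g = x := by group
  rw [h]

theorem CJG_comm {G : Type} [Group G] (g a b : G) :
    (g⁻¹ * a * g) * b = b * (g⁻¹ * a * g) ↔ a * (g * b * g⁻¹) = (g * b * g⁻¹) * a := by
  constructor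
  · intro h
    calc a * (g * b * g⁻¹) = g * ((g⁻¹ * a * g) * b) * g⁻¹ := by group
      _ = g * (b * (g⁻¹ * a * g)) * g⁻¹ := by rw [h]
      _ = (g * b * g⁻¹) * a := by group
  · intro h
    calc (g⁻¹ * a * g) * b = g⁻¹ * (a * (g * b * g⁻¹)) * g := by group
      _ = g⁻¹ * ((g * b * g⁻¹) * a) * g := by rw [h]
      _ = b * (g⁻¹ * a * g) := by group

theorem CJG_cz {G : Type} [Group G] (g : G) (P : Subgroup G) :
    cz (P.map (MulAut.conj g).toMonoidHom) = (cz P).map (MulAut.conj g).toMonoidHom := by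
  ext x
  rw [CJG_mem, Subgroup.mem_centralizer_iff, Subgroup.mem_centralizer_iff]
  constructor
  · intro h p hp
    have h1 := h (g * p * g⁻¹) ((CJG_mem' g P p).2 hp)
    exact ((CJG_comm g x p).2 h1.symm).symm
  · intro h q hq
    have h1 := h (g⁻¹ * q * g) ((CJG_mem g P q).1 hq)
    have h2 : g * (g⁻¹ * q * g) * g⁻¹ = q := by group
    have h3 := (CJG_comm g x (g⁻¹ * q * g)).1 h1.symm
    rw [h2] at h3
    exact h3.symm

theorem CJG_inf {G : Type} [Group G] (g : G) (L K : Subgroup G) :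
    (L ⊓ K).map (MulAut.conj g).toMonoidHom =
      L.map (MulAut.conj g).toMonoidHom ⊓ K.map (MulAut.conj g).toMonoidHom := by
  ext x
  rw [Subgroup.mem_inf, CJG_mem, CJG_mem, CJG_mem, Subgroup.mem_inf]

theorem CJG_Cz {G : Type} [Group G] (g : G) (L : Subgroup G) (y : G) :
    (Cz L y).map (MulAut.conj g).toMonoidHom = Cz (L.map (MulAut.conj g).toMonoidHom) (g * y * g⁻¹) := by
  unfold Cz
  rw [CJG_inf]
  congr 1
  ext x
  rw [CJG_mem, Subgroup.mem_centralizer_singleton_iff, Subgroup.mem_centralizer_singleton_iff]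
  exact CJG_comm g x y

theorem CJG_CF {G : Type} [Group G] (g : G) (L : Subgroup G) (z : G → ℂ)
    (hz : CF (L.map (MulAut.conj g).toMonoidHom) z) : CF L (fun x => z (g * x * g⁻¹)) := by
  refine ⟨fun h hh x => ?_, fun x hx => ?_⟩
  · have h1 : g * (h * x * h⁻¹) * g⁻¹ = (g * h * g⁻¹) * (g * x * g⁻¹) * (g * h * g⁻¹)⁻¹ := by group
    show z (g * (h * x * h⁻¹) * g⁻¹) = z (g * x * g⁻¹)
    rw [h1]
    exact hz.1 _ ((CJG_mem' g L h).2 hh) _
  · exact hz.2 _ fun h => hx ((CJG_mem' g L x).1 h)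

theorem CJG_SB {G : Type} [Group G] (M : Ideal (integralClosure ℤ ℂ)) (g : G) (L : Subgroup G) (η ψ : G → ℂ)
    (h : SB M L η ψ) :
    SB M (L.map (MulAut.conj g).toMonoidHom) (funMap (MulAut.conj g) η) (funMap (MulAut.conj g) ψ) := by
  intro z hz hi
  rw [cc_funMap, cc_funMap]
  exact h _ (CJG_CF g L z hz) fun x => hi _

theorem CJG_cls {G : Type} [Group G] (g : G) (L : Subgroup G) (y x : G) :
    cls (L.map (MulAut.conj g).toMonoidHom) (g * y * g⁻¹) (g * x * g⁻¹) = cls L y x := by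
  have h : (∃ l ∈ L.map (MulAut.conj g).toMonoidHom, l * (g * y * g⁻¹) * l⁻¹ = g * x * g⁻¹) ↔
      ∃ l ∈ L, l * y * l⁻¹ = x := by
    constructor
    · rintro ⟨l, hl, h1⟩
      refine ⟨g⁻¹ * l * g, (CJG_mem g L l).1 hl, ?_⟩
      calc (g⁻¹ * l * g) * y * (g⁻¹ * l * g)⁻¹ = g⁻¹ * (l * (g * y * g⁻¹) * l⁻¹) * g := by group
        _ = g⁻¹ * (g * x * g⁻¹) * g := by rw [h1]
        _ = x := by group
    · rintro ⟨l, hl, h1⟩
      refine ⟨g * l * g⁻¹, (CJG_mem' g L l).2 hl, ?_⟩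
      rw [← h1]
      group
  classical
  by_cases h2 : ∃ l ∈ L, l * y * l⁻¹ = x
  · have h3 := h.2 h2
    simp only [cls, if_pos h3, if_pos h2]
  · have h3 := fun h4 => h2 (h.1 h4)
    simp only [cls, if_neg h3, if_neg h2]

theorem CJG_cc {G : Type} [Group G] (g : G) (L : Subgroup G) (ψ : G → ℂ) (y : G) :
    cc (funMap (MulAut.conj g) ψ) (cls (L.map (MulAut.conj g).toMonoidHom) (g * y * g⁻¹)) = cc ψ (cls L y) := by
  rw [cc_funMap]
  congr 1
  funext x
  exact CJG_cls g L y x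

theorem CJG_card {G : Type} [Group G] (g : G) (L : Subgroup G) :
    Nat.card (L.map (MulAut.conj g).toMonoidHom : Subgroup G) = Nat.card L :=
  Nat.card_congr (L.equivMapOfInjective _ (MulAut.conj g).injective).symm.toEquiv

theorem CJG_pp {G : Type} [Group G] (p : ℕ) (g : G) (L : Subgroup G) :
    pp p (L.map (MulAut.conj g).toMonoidHom : Subgroup G) = pp p L := by
  unfold pp
  rw [CJG_card]

theorem CJG_mul {G : Type} [Group G] (g h : G) (ψ : G → ℂ) :
    funMap (MulAut.conj g) (funMap (MulAut.conj h) ψ) = funMap (MulAut.conj (g * h)) ψ := by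
  funext x
  simp [funMap, map_mul, mul_inv_rev]

theorem CJG_one {G : Type} [Group G] (ψ : G → ℂ) : funMap (MulAut.conj (1 : G)) ψ = ψ := by
  funext x
  simp [funMap]

theorem CJG_map_map {G : Type} [Group G] (g : G) (L : Subgroup G) :
    (L.map (MulAut.conj g⁻¹).toMonoidHom).map (MulAut.conj g).toMonoidHom = L := by
  ext x
  rw [CJG_mem, CJG_mem]
  have h : g⁻¹⁻¹ * (g⁻¹ * x * g) * g⁻¹ = x := by group
  rw [h]

theorem CJG_map_map' {G : Type} [Group G] (g : G) (L : Subgroup G) :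
    (L.map (MulAut.conj g).toMonoidHom).map (MulAut.conj g⁻¹).toMonoidHom = L := by
  have h := CJG_map_map g⁻¹ L
  rwa [inv_inv] at h

theorem CJG_order {G : Type} [Group G] (g x : G) : orderOf (g * x * g⁻¹) = orderOf x :=
  orderOf_injective (MulAut.conj g).toMonoidHom (MulAut.conj g).injective x

theorem CJG (h1 : IF_stmt) : CJG_stmt := by
  intro G _ _ M p g L
  have hBl : ∀ (g : G) (L : Subgroup G) (θ : G → ℂ), ∀ ψ ∈ Bl M L θ,
      funMap (MulAut.conj g) ψ ∈ Bl M (L.map (MulAut.conj g).toMonoidHom) (funMap (MulAut.conj g) θ) := by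
    intro g L θ ψ hψ
    exact ⟨((h1 G L).2 ψ hψ.1).2.2 (MulAut.conj g), CJG_SB M g L ψ θ hψ.2⟩
  refine ⟨?_, CJG_SB M g L, CJG_cc g L, ?_, CJG_cz g, ?_, ?_, CJG_mul g, ?_⟩
  · intro ψ hψ
    exact ((h1 G L).2 ψ hψ).2.2 (MulAut.conj g)
  · intro ψ D x hD
    refine ⟨?_, ?_, ?_, ?_, ?_, ?_, ?_⟩
    · have h2 := hD.reg
      unfold PReg at h2 ⊢
      rwa [CJG_order]
    · exact (CJG_mem' g L x).2 hD.mem
    · rw [← CJG_Cz]
      exact Subgroup.map_mono hD.le
    · exact hD.pg.map _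
    · rw [CJG_card, hD.card, ← CJG_Cz, CJG_pp]
    · rw [CJG_cc]
      exact hD.ne
    · intro y hy hne
      have h2 : g * (g⁻¹ * y * g) * g⁻¹ = y := by group
      have h3 := (CJG_mem g L y).1 hy
      rw [← h2, CJG_cc] at hne
      have h4 := hD.min _ h3 hne
      rw [CJG_card, ← h2, ← CJG_Cz, CJG_pp]
      exact h4
  · intro hg η
    have hL : L.map (MulAut.conj g).toMonoidHom = L := by
      ext x
      rw [CJG_mem]
      constructor
      · intro h
        have h2 := L.mul_mem (L.mul_mem hg h) (L.inv_mem hg)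
        have h3 : g * (g⁻¹ * x * g) * g⁻¹ = x := by group
        rwa [h3] at h2
      · intro h
        exact L.mul_mem (L.mul_mem (L.inv_mem hg) h) hg
    refine ⟨fun z hz hi => ?_, hL⟩
    rw [cc_funMap]
    have h2 : (fun x => z (g * x * g⁻¹)) = z := by
      funext x
      exact hz.1 g hg x
    rw [h2]
    exact ⟨0, M.zero_mem, by simp⟩
  · intro θ
    ext ψ
    constructor
    · intro hψ
      refine ⟨funMap (MulAut.conj g⁻¹) ψ, ?_, ?_⟩
      · have h2 := hBl g⁻¹ _ _ ψ hψ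
        rw [CJG_map_map', CJG_mul, inv_mul_cancel, CJG_one] at h2
        exact h2
      · rw [CJG_mul, mul_inv_cancel, CJG_one]
    · rintro ⟨φ, hφ, rfl⟩
      exact hBl g L θ φ hφ
  · intro P K y hK
    subst hK
    refine ⟨?_, CJG_Cz g L y⟩
    rw [CJG_inf, CJG_cz]

end Pool.Agent.FI
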