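import Pool.Agent.helper95.FI.SpecT

set_option autoImplicit false

open Finset

noncomputable section

namespace Pool.Agent.FI

theorem PLN_star {D : ℕ} [NeZero D] (χ : DirichletCharacter ℂ D) {a : ZMod D} (ha : IsUnit a) :
    (starRingEnd ℂ) (χ a) = χ a⁻¹ := by
  obtain ⟨u, rfl⟩ := ha
  have h1 : ‖χ (u : ZMod D)‖ = 1 := χ.unit_norm_eq_one u
  have h2 : χ (u : ZMod D)⁻¹ * χ (u : ZMod D) = 1 := by
    rw [← map_mul, ZMod.inv_mul_of_unit _ u.isUnit, map_one]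
  rw [← Complex.inv_eq_conj h1]
  exact (eq_inv_of_mul_eq_one_left h2).symm

theorem PLN_cast {D a b : ℕ} (ha : a < D) (hb : b < D) : ((a : ZMod D) = (b : ZMod D)) ↔ a = b := by
  rw [ZMod.natCast_eq_natCast_iff', Nat.mod_eq_of_lt ha, Nat.mod_eq_of_lt hb]

theorem PLN_parseval (D : ℕ) [NeZero D] (e : ℕ → ℝ) :
    ∑ χ : DirichletCharacter ℂ D, ‖∑ ω ∈ range D with Nat.Coprime ω D, (e ω : ℂ) * χ (ω : ZMod D)‖ ^ 2 =
      (Nat.totient D : ℝ) * ∑ ω ∈ range D with Nat.Coprime ω D, e ω ^ 2 := by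
  apply Complex.ofReal_injective
  rw [Complex.ofReal_sum]
  have h1 : ∀ χ : DirichletCharacter ℂ D,
      ((‖∑ ω ∈ range D with Nat.Coprime ω D, (e ω : ℂ) * χ (ω : ZMod D)‖ ^ 2 : ℝ) : ℂ) =
      ∑ ω ∈ range D with Nat.Coprime ω D, ∑ ω' ∈ range D with Nat.Coprime ω' D,
        (e ω : ℂ) * (e ω' : ℂ) * (χ (ω : ZMod D)⁻¹ * χ (ω' : ZMod D)) := by
    intro χ
    rw [Complex.ofReal_pow, ← Complex.conj_mul', map_sum, Finset.sum_mul_sum]
    refine Finset.sum_congr rfl (fun ω hω => Finset.sum_congr rfl (fun ω' _ => ?_))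
    rw [mem_filter] at hω
    have hu : IsUnit (ω : ZMod D) := (ZMod.isUnit_iff_coprime ω D).2 hω.2
    rw [map_mul, Complex.conj_ofReal, PLN_star χ hu]
    ring
  rw [Finset.sum_congr rfl (fun χ _ => h1 χ), Finset.sum_comm]
  rw [Complex.ofReal_mul, Complex.ofReal_sum, Finset.mul_sum]
  refine Finset.sum_congr rfl (fun ω hω => ?_)
  rw [Finset.sum_comm]
  have hω' := mem_filter.1 hω
  have hωD : ω < D := mem_range.1 hω'.1
  have hu : IsUnit (ω : ZMod D) := (ZMod.isUnit_iff_coprime ω D).2 hω'.2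
  have h2 : ∀ ω' ∈ (range D).filter (fun ω' => Nat.Coprime ω' D),
      ∑ χ : DirichletCharacter ℂ D, (e ω : ℂ) * (e ω' : ℂ) * (χ (ω : ZMod D)⁻¹ * χ (ω' : ZMod D)) =
        if ω = ω' then (e ω : ℂ) * (e ω' : ℂ) * (Nat.totient D : ℂ) else 0 := by
    intro ω' hω''
    have hω'D : ω' < D := mem_range.1 (mem_filter.1 hω'').1
    rw [← Finset.mul_sum, DirichletCharacter.sum_char_inv_mul_char_eq ℂ hu]
    by_cases h : ω = ω'
    · rw [if_pos h, if_pos ((PLN_cast hωD hω'D).2 h)]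
    · rw [if_neg h, if_neg (fun hc => h ((PLN_cast hωD hω'D).1 hc)), mul_zero]
  rw [Finset.sum_congr rfl h2, Finset.sum_ite_eq, if_pos hω]
  push_cast
  ring

open scoped Classical in
theorem PLN_key {D : ℕ} [NeZero D] (χ : DirichletCharacter ℂ D) (l₁ l₂ : ℤ) :
    (starRingEnd ℂ) (χ (l₁ : ZMod D)) * χ (l₂ : ZMod D) =
      ∑ ω ∈ range D with Nat.Coprime ω D,
        if IsCoprime l₁ (D : ℤ) ∧ (D : ℤ) ∣ l₂ - (ω : ℤ) * l₁ then χ (ω : ZMod D) else 0 := by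
  by_cases hc : IsCoprime l₁ (D : ℤ)
  · have hu : IsUnit (l₁ : ZMod D) := (ZMod.coe_int_isUnit_iff_isCoprime l₁ D).2 hc.symm
    obtain ⟨c, hcdef⟩ : ∃ c : ZMod D, c = (l₁ : ZMod D)⁻¹ * (l₂ : ZMod D) := ⟨_, rfl⟩
    have hdiv : ∀ ω : ℕ, ((D : ℤ) ∣ l₂ - (ω : ℤ) * l₁) ↔ (ω : ZMod D) = c := by
      intro ω
      rw [← ZMod.intCast_zmod_eq_zero_iff_dvd]
      push_cast
      rw [sub_eq_zero, hcdef]
      constructor
      · intro h
        rw [h, mul_comm (ω : ZMod D), ← mul_assoc, ZMod.inv_mul_of_unit _ hu, one_mul]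
      · intro h
        rw [h, mul_comm _ (l₁ : ZMod D), ← mul_assoc, ZMod.mul_inv_of_unit _ hu, one_mul]
    rw [PLN_star χ hu, ← map_mul, ← hcdef]
    have h1 : ∀ ω ∈ (range D).filter (fun ω => Nat.Coprime ω D),
        (if IsCoprime l₁ (D : ℤ) ∧ (D : ℤ) ∣ l₂ - (ω : ℤ) * l₁ then χ (ω : ZMod D) else 0) =
          if c.val = ω then χ c else 0 := by
      intro ω hω
      have hωD : ω < D := mem_range.1 (mem_filter.1 hω).1
      have hiff : ((ω : ZMod D) = c) ↔ c.val = ω := by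
        constructor
        · intro h
          rw [← h, ZMod.val_natCast_of_lt hωD]
        · intro h
          rw [← h, ZMod.natCast_zmod_val]
      by_cases h : (ω : ZMod D) = c
      · rw [if_pos ⟨hc, (hdiv ω).2 h⟩, if_pos (hiff.1 h), h]
      · rw [if_neg (fun h2 => h ((hdiv ω).1 h2.2)), if_neg (fun h2 => h (hiff.2 h2))]
    rw [Finset.sum_congr rfl h1, Finset.sum_ite_eq]
    by_cases hm : c.val ∈ (range D).filter (fun ω => Nat.Coprime ω D)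
    · rw [if_pos hm]
    · rw [if_neg hm]
      apply MulChar.map_nonunit
      intro hcu
      apply hm
      rw [mem_filter, mem_range]
      refine ⟨ZMod.val_lt c, ?_⟩
      rw [← ZMod.isUnit_iff_coprime, ZMod.natCast_zmod_val]
      exact hcu
  · have hu : ¬ IsUnit (l₁ : ZMod D) := by
      intro h
      exact hc ((ZMod.coe_int_isUnit_iff_isCoprime l₁ D).1 h).symm
    rw [MulChar.map_nonunit χ hu, map_zero, zero_mul]
    symm
    refine Finset.sum_eq_zero (fun ω _ => ?_)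
    rw [if_neg (fun h => hc h.1)]

open scoped Classical in
theorem PLN : PLN_stmt := by
  intro x K lam i j D hD
  have : NeZero D := ⟨by omega⟩
  obtain ⟨I, hI⟩ : ∃ I : Finset ℤ, I = Ioc (pt x K i : ℤ) (pt x K (i + 1)) := ⟨_, rfl⟩
  obtain ⟨J, hJ⟩ : ∃ J : Finset ℤ, J = Ioc (pt x K j : ℤ) (pt x K (j + 1)) := ⟨_, rfl⟩
  rw [← hI, ← hJ]
  have hEf : ∀ ω : ℕ, Ef x K lam i j D (ω : ℤ) = ∑ l₁ ∈ I, ∑ l₂ ∈ J,
      if IsCoprime l₁ (D : ℤ) ∧ (D : ℤ) ∣ l₂ - (ω : ℤ) * l₁ then lam l₁ * lam l₂ else 0 := by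
    intro ω
    unfold Ef
    rw [← hI, ← hJ]
  have hkey : ∀ χ : DirichletCharacter ℂ D,
      (starRingEnd ℂ) (∑ l ∈ I, (lam l : ℂ) * χ (l : ZMod D)) * (∑ l ∈ J, (lam l : ℂ) * χ (l : ZMod D)) =
      ∑ ω ∈ range D with Nat.Coprime ω D, ((Ef x K lam i j D (ω : ℤ) : ℝ) : ℂ) * χ (ω : ZMod D) := by
    intro χ
    rw [map_sum, Finset.sum_mul_sum]
    have h1 : ∀ ω ∈ (range D).filter (fun ω => Nat.Coprime ω D),
        ((Ef x K lam i j D (ω : ℤ) : ℝ) : ℂ) * χ (ω : ZMod D) =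
        ∑ l₁ ∈ I, ∑ l₂ ∈ J, (lam l₁ : ℂ) * (lam l₂ : ℂ) *
          (if IsCoprime l₁ (D : ℤ) ∧ (D : ℤ) ∣ l₂ - (ω : ℤ) * l₁ then χ (ω : ZMod D) else 0) := by
      intro ω _
      rw [hEf, Complex.ofReal_sum, Finset.sum_mul]
      refine Finset.sum_congr rfl (fun l₁ _ => ?_)
      rw [Complex.ofReal_sum, Finset.sum_mul]
      refine Finset.sum_congr rfl (fun l₂ _ => ?_)
      by_cases h : IsCoprime l₁ (D : ℤ) ∧ (D : ℤ) ∣ l₂ - (ω : ℤ) * l₁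
      · rw [if_pos h, if_pos h]
        push_cast
        ring
      · rw [if_neg h, if_neg h]
        simp
    rw [Finset.sum_congr rfl h1]
    have h2 : ∑ ω ∈ range D with Nat.Coprime ω D, ∑ l₁ ∈ I, ∑ l₂ ∈ J, (lam l₁ : ℂ) * (lam l₂ : ℂ) *
          (if IsCoprime l₁ (D : ℤ) ∧ (D : ℤ) ∣ l₂ - (ω : ℤ) * l₁ then χ (ω : ZMod D) else 0) =
        ∑ l₁ ∈ I, ∑ ω ∈ range D with Nat.Coprime ω D, ∑ l₂ ∈ J, (lam l₁ : ℂ) * (lam l₂ : ℂ) *
          (if IsCoprime l₁ (D : ℤ) ∧ (D : ℤ) ∣ l₂ - (ω : ℤ) * l₁ then χ (ω : ZMod D) else 0) :=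
      Finset.sum_comm
    rw [h2]
    apply Finset.sum_congr rfl
    intro l₁ _
    have h3 : ∑ ω ∈ range D with Nat.Coprime ω D, ∑ l₂ ∈ J, (lam l₁ : ℂ) * (lam l₂ : ℂ) *
          (if IsCoprime l₁ (D : ℤ) ∧ (D : ℤ) ∣ l₂ - (ω : ℤ) * l₁ then χ (ω : ZMod D) else 0) =
        ∑ l₂ ∈ J, ∑ ω ∈ range D with Nat.Coprime ω D, (lam l₁ : ℂ) * (lam l₂ : ℂ) *
          (if IsCoprime l₁ (D : ℤ) ∧ (D : ℤ) ∣ l₂ - (ω : ℤ) * l₁ then χ (ω : ZMod D) else 0) :=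
      Finset.sum_comm
    rw [h3]
    apply Finset.sum_congr rfl
    intro l₂ _
    rw [← Finset.mul_sum, ← PLN_key χ l₁ l₂, map_mul, Complex.conj_ofReal]
    ring
  have hnorm : ∀ χ : DirichletCharacter ℂ D,
      ‖∑ l ∈ I, (lam l : ℂ) * χ (l : ZMod D)‖ ^ 2 * ‖∑ l ∈ J, (lam l : ℂ) * χ (l : ZMod D)‖ ^ 2 =
      ‖∑ ω ∈ range D with Nat.Coprime ω D, ((Ef x K lam i j D (ω : ℤ) : ℝ) : ℂ) * χ (ω : ZMod D)‖ ^ 2 := by
    intro χ
    rw [← hkey χ, norm_mul, RCLike.norm_conj, mul_pow]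
  have hP := PLN_parseval D (fun ω => Ef x K lam i j D (ω : ℤ))
  have hS : ∑ χ : DirichletCharacter ℂ D,
      ‖∑ l ∈ I, (lam l : ℂ) * χ (l : ZMod D)‖ ^ 2 * ‖∑ l ∈ J, (lam l : ℂ) * χ (l : ZMod D)‖ ^ 2 =
      ∑ χ : DirichletCharacter ℂ D,
      ‖∑ ω ∈ range D with Nat.Coprime ω D, ((Ef x K lam i j D (ω : ℤ) : ℝ) : ℂ) * χ (ω : ZMod D)‖ ^ 2 :=
    Finset.sum_congr rfl (fun χ _ => hnorm χ)
  rw [hS, hP]
  have hφ : (Nat.totient D : ℝ) ≠ 0 := by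
    have := Nat.totient_pos.2 hD
    exact_mod_cast this.ne'
  rw [← mul_assoc, one_div, inv_mul_cancel₀ hφ, one_mul]

end Pool.Agent.FI
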