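import Pool.Agent.helper40.FI.SpecLA

set_option autoImplicit false

namespace Pool.Agent.FI

open Finset

open Pool.Agent.GR

theorem LGG (hLIN : LIN_stmt) : LGG_stmt := by
  intro p M D _ _ X _ Z I β d n δ ε hL hS
  have hn : ∀ u, u ∉ Z → (n u : ℂ) ≠ 0 := by
    intro u hu h
    have h1 : n u = 0 := by exact_mod_cast h
    exact hL.h3b u hu (h1 ▸ dvd_zero _)
  have hee : ∀ u, (ε u : ℂ) * (ε u : ℂ) = 1 := by
    intro u
    rcases hS.pm u with h | h <;> rw [h] <;> norm_num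
  have he0 : ∀ u, (ε u : ℂ) ≠ 0 := by
    intro u h
    have h1 := hee u
    rw [h, mul_zero] at h1
    exact zero_ne_one h1
  have hs : ∀ u, u ∉ Z → (ε u : ℂ) * (n u : ℂ) ≠ 0 := fun u hu => mul_ne_zero (he0 u) (hn u hu)
  have hg : ∀ χ u, u ∉ Z → lg Z ε d χ u = β χ u / ((ε u : ℂ) * (n u : ℂ)) := by
    intro χ u hu
    rw [lg_of_not_mem hu, hL.h3a χ u hu, eq_div_iff (hs u hu)]
    linear_combination (d χ u * (n u : ℂ)) * hee u
  have htZ : ∀ t ∈ I, ∀ u, u ∉ Z → t u ∉ Z := by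
    intro t ht u hu h
    have h1 := hL.fz t⁻¹ (I.inv_mem ht) (t u) h
    rw [MulAut.inv_apply_self] at h1
    rw [← h1] at h
    exact hu h
  have hgt : ∀ χ, ∀ t ∈ I, ∀ u, lg Z ε d χ (t u) = lg Z ε d χ u := by
    intro χ t ht u
    by_cases hu : u ∈ Z
    · rw [hL.fz t ht u hu]
    · rw [hg χ _ (htZ t ht u hu), hg χ u hu, hL.h2 χ t ht u, hS.ti t ht u hu, hL.h3c t ht u hu]
  have hzu : ∀ z ∈ Z, ∀ u, u ∉ Z → z * u ∉ Z := fun z hz u hu h => hu ((Z.mul_mem_cancel_left hz).1 h)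
  refine ⟨hL.set.pr, hL.pg, hL.ne, hL.cop, hL.fz, hL.fr, fun χ z hz => lg_of_mem hz, hgt, ?_, ?_, ?_, ?_, ?_⟩
  · intro χ
    obtain ⟨v, hv⟩ := hL.h5 χ
    obtain ⟨l, hl⟩ := exists_ext Z v
    refine ⟨l, fun z hz u => ?_⟩
    by_cases hu : u ∈ Z
    · rw [lg_of_mem hu, lg_of_mem (Z.mul_mem hz hu), mul_zero]
    · have h1 := hS.zi z hz u hu
      have h2 : (ε (z * u) : ℂ) * (n (z * u) : ℂ) = (ε u : ℂ) * (n u : ℂ) := by exact_mod_cast h1
      have h3 := hv ⟨z, hz⟩ u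
      have h4 := hl ⟨z, hz⟩
      rw [hg χ _ (hzu z hz u hu), hg χ u hu, h2, h4]
      have h5 : β χ (z * u) = lv v ⟨z, hz⟩ * β χ u := h3
      rw [h5, mul_div_assoc]
  · intro u a hu hta
    by_cases ha : a ∈ Z
    · refine Finset.sum_eq_zero fun χ _ => ?_
      rw [lg_of_mem ha, zero_mul]
    · have h1 := hL.h4a u a hu hta
      have h2 : ∀ χ ∈ (Finset.univ : Finset X), lg Z ε d χ a * (starRingEnd ℂ) (lg Z ε d χ u) =
          (β χ a * (starRingEnd ℂ) (β χ u)) /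
            (((ε a : ℂ) * (n a : ℂ)) * (starRingEnd ℂ) ((ε u : ℂ) * (n u : ℂ))) := by
        intro χ _
        rw [hg χ a ha, hg χ u hu, map_div₀, div_mul_div_comm]
      rw [Finset.sum_congr rfl h2, ← Finset.sum_div, h1, zero_div]
  · intro u hu t ht
    rw [← hL.h4b u hu]
    refine Finset.sum_congr rfl fun χ _ => ?_
    rw [hgt χ t ht, lg_of_not_mem hu, map_mul, map_intCast]
    linear_combination (d χ u * (starRingEnd ℂ) (d χ u)) * hee u
  · intro χ l l' hll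
    exact hLIN p M D X Z I β d n δ ε hL hS χ l l' hll
  · intro χ
    obtain ⟨u, hu, h⟩ := hL.h6 χ
    refine ⟨u, hu, ?_⟩
    rw [lg_of_not_mem hu]
    exact mul_ne_zero (he0 u) h

end Pool.Agent.FI
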